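import Pool.Agent.Y240.KF.Stm

set_option autoImplicit false
set_option linter.unusedSectionVars false
set_option linter.unusedVariables false

/-!
# KF-REST: graphs of maximum degree `Δ` without `K_{Δ+1}` appear below the threshold
-/

namespace Pool.Agent.Y31.KF

open Finset
open scoped Classical
open Pool.Agent
open Pool.Agent.TH965 Pool.Agent.TH965.Emb Pool.Agent.TH965.Copy Pool.Agent.TH965.Spread
open Pool.Agent.TH948.KK (ind ind_true ind_false ind_nonneg ind_le_one pairHom image_pairHom)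
open Pool.Agent.TH879.MS (action_tail)
open Pool.Agent.Y240.KF (StAut StDens StRest)

open Pool.Agent.TH948.KK.Orbit in
/-- The orbit count, with the hypothesis for the subgraphs without isolated vertices only. -/
lemma orbit_countU {n m : ℕ} (hmn : m ≤ n) (H : SimpleGraph (Fin m)) (q : ℝ) (hq : 0 ≤ q)
    (A : Finset (Sym2 (Fin n)))
    (h : ∀ (U : Finset (Sym2 (Fin m))) (hU : ∀ e ∈ U, e ∈ H.edgeSet),
      1 ≤ (n.descFactorial (supp U).card : ℝ) /
        (Nat.card ((subU H U hU).coe ≃g (subU H U hU).coe) : ℝ) * q ^ U.card)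
    (hA : A ⊆ (TH965.Emb.eF H).image (Sym2.map (Fin.castLE hmn))) :
    1 ≤ ((univ.image (fun σ : Equiv.Perm (Fin n) => A.image (Sym2.map σ))).card : ℝ)
      * q ^ A.card := by
  classical
  set c : Fin m → Fin n := Fin.castLE hmn with hc
  have hcinj : Function.Injective c := Fin.castLE_injective hmn
  have hcs : Function.Injective (Sym2.map c) := Sym2.map.injective hcinj
  set U : Finset (Sym2 (Fin m)) := (TH965.Emb.eF H).filter (fun e => Sym2.map c e ∈ A) with hUdef
  have hU : ∀ e ∈ U, e ∈ H.edgeSet := fun e he => TH965.Emb.mem_eF.mp (Finset.mem_filter.mp he).1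
  have hAU : A = U.image (Sym2.map c) := by
    ext e
    constructor
    · intro he
      obtain ⟨e', he', rfl⟩ := Finset.mem_image.mp (hA he)
      exact Finset.mem_image_of_mem _ (Finset.mem_filter.mpr ⟨he', he⟩)
    · intro he
      obtain ⟨e', he', rfl⟩ := Finset.mem_image.mp he
      exact (Finset.mem_filter.mp he').2
  have hcard : A.card = U.card := by
    rw [hAU, Finset.card_image_of_injective _ hcs]
  have h1 := h U hU
  set v := (TH965.Emb.supp U).card with hvdef
  have hvn : v ≤ n := by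
    have h2 := Finset.card_le_univ (TH965.Emb.supp U)
    rw [Fintype.card_fin] at h2
    omega
  have hfin : Finite ((TH965.subU H U hU).coe ≃g (TH965.subU H U hU).coe) := by
    apply Finite.of_injective (fun f => f.toEquiv)
    intro f f' h
    exact RelIso.toEquiv_injective h
  have hft : Fintype ((TH965.subU H U hU).coe ≃g (TH965.subU H U hU).coe) := Fintype.ofFinite _
  set a := Nat.card ((TH965.subU H U hU).coe ≃g (TH965.subU H U hU).coe) with ha
  have hapos : 0 < a := Nat.card_pos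
  -- the stabiliser
  have hstab : (univ.filter (fun τ : Equiv.Perm (Fin n) => A.image (Sym2.map τ) = A)).card ≤
      a * (n - v).factorial := by
    have hsub : univ.filter (fun τ : Equiv.Perm (Fin n) => A.image (Sym2.map τ) = A) ⊆
        (univ : Finset ((TH965.subU H U hU).coe ≃g (TH965.subU H U hU).coe)).biUnion
          (fun f => univ.filter (fun τ : Equiv.Perm (Fin n) =>
            ∀ x : {x // x ∈ TH965.Emb.supp U}, τ (c x.1) = c (f ⟨x.1, x.2⟩).1)) := by
      intro τ hτ
      have h2 := (Finset.mem_filter.mp hτ).2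
      rw [hAU] at h2
      obtain ⟨f, hf⟩ := exists_aut hmn H U hU τ h2
      exact Finset.mem_biUnion.mpr ⟨f, Finset.mem_univ _, Finset.mem_filter.mpr
        ⟨Finset.mem_univ _, hf⟩⟩
    refine (Finset.card_le_card hsub).trans
      ((Finset.card_biUnion_le_card_mul _ _ (n - v).factorial ?_).trans ?_)
    · intro f _
      have h3 := TH965.Copy.natCard_perm_prescribed (V := {x // x ∈ TH965.Emb.supp U})
        (α := Fin n) (fun x => c x.1) (fun x => c (f ⟨x.1, x.2⟩).1)
        (fun x y hxy => Subtype.ext (hcinj hxy))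
      have h4 : Nat.card (Fin n) - Nat.card {x // x ∈ TH965.Emb.supp U} = n - v := by
        rw [Nat.card_eq_fintype_card, Nat.card_eq_fintype_card, Fintype.card_fin, Fintype.card_coe]
      rw [h4] at h3
      rw [← Fintype.card_subtype, ← Nat.card_eq_fintype_card]
      exact h3
    · rw [Finset.card_univ, ha, Nat.card_eq_fintype_card]
  -- all fibres
  have hfib : ∀ A' ∈ univ.image (fun σ : Equiv.Perm (Fin n) => A.image (Sym2.map σ)),
      (univ.filter (fun σ : Equiv.Perm (Fin n) => A.image (Sym2.map σ) = A')).card ≤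
      a * (n - v).factorial := by
    intro A' hA'
    obtain ⟨σ₀, -, rfl⟩ := Finset.mem_image.mp hA'
    refine le_trans ?_ hstab
    apply Finset.card_le_card_of_injOn (fun σ => σ₀⁻¹ * σ)
    · intro σ hσ
      rw [Finset.mem_coe, Finset.mem_filter] at hσ ⊢
      refine ⟨Finset.mem_univ _, ?_⟩
      have h5 : A.image (Sym2.map (σ₀⁻¹ * σ : Equiv.Perm (Fin n))) =
          (A.image (Sym2.map σ)).image (Sym2.map (σ₀⁻¹ : Equiv.Perm (Fin n))) := by
        rw [Finset.image_image, ← Sym2.map_comp]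
        rfl
      rw [h5, hσ.2, Finset.image_image, ← Sym2.map_comp]
      have h6 : ((σ₀⁻¹ : Equiv.Perm (Fin n)) : Fin n → Fin n) ∘ σ₀ = id := by
        funext x
        simp
      rw [h6, Sym2.map_id, Finset.image_id]
    · intro σ _ σ' _ h
      exact mul_left_cancel h
  have hcount := Finset.card_le_mul_card_image (s := (univ : Finset (Equiv.Perm (Fin n))))
    (f := fun σ : Equiv.Perm (Fin n) => A.image (Sym2.map σ)) (a * (n - v).factorial) hfib
  rw [Finset.card_univ, Fintype.card_perm, Fintype.card_fin,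
    ← Nat.factorial_mul_descFactorial hvn] at hcount
  set N := (univ.image (fun σ : Equiv.Perm (Fin n) => A.image (Sym2.map σ))).card with hN
  have hcount2 : n.descFactorial v ≤ a * N := by
    have h7 : (n - v).factorial * n.descFactorial v ≤ (n - v).factorial * (a * N) := by
      calc _ ≤ _ := hcount
        _ = _ := by ring
    exact Nat.le_of_mul_le_mul_left h7 (Nat.factorial_pos _)
  have ha' : (0 : ℝ) < (a : ℝ) := by exact_mod_cast hapos
  have hcount3 : (n.descFactorial v : ℝ) / (a : ℝ) ≤ (N : ℝ) := by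
    rw [div_le_iff₀ ha', mul_comm]
    exact_mod_cast hcount2
  rw [hcard]
  exact h1.trans (mul_le_mul_of_nonneg_right hcount3 (by positivity))

/-- The number of components of a graph without isolated vertices. -/
lemma two_comp {V : Type} [Fintype V] (K : SimpleGraph V) (h : ∀ v, ∃ w, K.Adj v w) :
    2 * Nat.card K.ConnectedComponent ≤ Fintype.card V := by
  choose nb hnb using h
  have hfin : Finite K.ConnectedComponent := Quot.finite _
  have hrep : ∀ c : K.ConnectedComponent, K.connectedComponentMk (Quot.out c) = c := fun c =>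
    Quot.out_eq c
  have hinj : Function.Injective (Sum.elim (fun c : K.ConnectedComponent => Quot.out c)
      (fun c : K.ConnectedComponent => nb (Quot.out c))) := by
    have hnbc : ∀ c : K.ConnectedComponent, K.connectedComponentMk (nb (Quot.out c)) = c := by
      intro c
      conv_rhs => rw [← hrep c]
      exact SimpleGraph.ConnectedComponent.sound (hnb _).reachable.symm
    rintro (c | c) (c' | c') h
    · simp only [Sum.elim_inl] at h
      rw [← hrep c, h, hrep c']
    · exfalso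
      simp only [Sum.elim_inl, Sum.elim_inr] at h
      have h1 : c = c' := by rw [← hrep c, h, hnbc c']
      subst h1
      have h2 := hnb (Quot.out c)
      rw [← h] at h2
      exact K.loopless.irrefl _ h2
    · exfalso
      simp only [Sum.elim_inl, Sum.elim_inr] at h
      have h1 : c' = c := by rw [← hrep c', ← h, hnbc c]
      subst h1
      have h2 := hnb (Quot.out c')
      rw [h] at h2
      exact K.loopless.irrefl _ h2
    · simp only [Sum.elim_inr] at h
      rw [← hnbc c, h, hnbc c']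
  have h1 := Nat.card_le_card_of_injective _ hinj
  rw [Nat.card_sum, Nat.card_eq_fintype_card (α := V)] at h1
  omega

/-- The inequality behind the orbit count. -/
lemma ineq (D n v c u au de : ℕ) (hD : 1 ≤ D) (hn : 1 ≤ n) (hvn : v ≤ n) (hc : 2 * c ≤ v)
    (hau0 : 0 < au) (hau : au ≤ v ^ c * D ^ (v - c))
    (hu : 2 * (D + 1) * u + D * (D + 2) * c ≤ D * (D + 2) * v)
    (hde : (n : ℝ) ^ v ≤ Real.exp v * (de : ℝ))
    (hsm : (Real.exp 1 * D) ^ 2 / n ≤ 1) :
    1 ≤ (de : ℝ) / (au : ℝ) *
      (((Real.exp 1 * D) ^ 2 / n) ^ (2 * ((D : ℝ) + 1) / (D * (D + 2)))) ^ u := by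
  set a : ℝ := Real.exp 1 * D with ha
  have hD' : (1 : ℝ) ≤ D := by exact_mod_cast hD
  have hn' : (1 : ℝ) ≤ n := by exact_mod_cast hn
  have he : (1 : ℝ) ≤ Real.exp 1 := Real.one_le_exp (by norm_num)
  have ha1 : 1 ≤ a := by rw [ha]; nlinarith
  have hb0 : 0 < a ^ 2 / n := by positivity
  obtain ⟨w, rfl⟩ : ∃ w, v = c + w := ⟨v - c, by omega⟩
  rw [Nat.add_sub_cancel_left] at hau
  -- the power of `q`
  have hq : (a ^ 2 / n) ^ w ≤
      ((a ^ 2 / n) ^ (2 * ((D : ℝ) + 1) / (D * (D + 2)))) ^ u := by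
    rw [← Real.rpow_natCast (a ^ 2 / n) w, ← Real.rpow_natCast _ u, ← Real.rpow_mul hb0.le]
    apply Real.rpow_le_rpow_of_exponent_ge hb0 hsm
    rw [div_mul_eq_mul_div, div_le_iff₀ (by positivity)]
    have h1 : 2 * (D + 1) * u ≤ D * (D + 2) * w := by
      have h2 : D * (D + 2) * (c + w) = D * (D + 2) * w + D * (D + 2) * c := by ring
      rw [h2] at hu
      exact Nat.le_of_add_le_add_right hu
    have h3 : (2 * ((D : ℝ) + 1) * u : ℝ) ≤ D * (D + 2) * w := by exact_mod_cast h1
    linarith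
  have hau' : (au : ℝ) ≤ (n : ℝ) ^ c * (D : ℝ) ^ (c + w) := by
    have h1 : (au : ℝ) ≤ ((c + w : ℕ) : ℝ) ^ c * (D : ℝ) ^ w := by exact_mod_cast hau
    refine h1.trans ?_
    apply mul_le_mul
    · exact pow_le_pow_left₀ (Nat.cast_nonneg _) (by exact_mod_cast hvn) _
    · exact pow_le_pow_right₀ hD' (by omega)
    · positivity
    · positivity
  have hau0' : (0 : ℝ) < au := by exact_mod_cast hau0
  have hde' : (n : ℝ) ^ (c + w) / (Real.exp 1) ^ (c + w) ≤ de := by
    rw [div_le_iff₀ (by positivity)]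
    have h1 : Real.exp ((c + w : ℕ) : ℝ) = (Real.exp 1) ^ (c + w) := by
      rw [← Real.exp_nat_mul, mul_one]
    rw [h1] at hde
    linarith
  calc (1 : ℝ) ≤ a ^ (2 * w) / a ^ (c + w) := by
        rw [one_le_div (by positivity)]
        exact pow_le_pow_right₀ ha1 (by omega)
    _ = ((n : ℝ) ^ (c + w) / (Real.exp 1) ^ (c + w)) / ((n : ℝ) ^ c * (D : ℝ) ^ (c + w)) *
        (a ^ 2 / n) ^ w := by
        have e1 : a ^ (c + w) = (Real.exp 1) ^ (c + w) * (D : ℝ) ^ (c + w) := by
          rw [ha, mul_pow]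
        rw [e1, div_pow, ← pow_mul, pow_add (n : ℝ)]
        have hn0 : (n : ℝ) ≠ 0 := by positivity
        have hD0 : (D : ℝ) ≠ 0 := by positivity
        have he0 : Real.exp 1 ≠ 0 := (Real.exp_pos _).ne'
        field_simp
    _ ≤ (de : ℝ) / (au : ℝ) * (a ^ 2 / n) ^ w := by
        apply mul_le_mul_of_nonneg_right _ (by positivity)
        exact div_le_div₀ (Nat.cast_nonneg _) hde' hau0' hau'
    _ ≤ _ := mul_le_mul_of_nonneg_left hq (by positivity)

/-- The asymptotic estimate. -/
lemma asym (D : ℕ) (hD : 1 ≤ D) (δ : ℝ) (hδ : 0 < δ) : ∃ n0 : ℕ, ∀ n : ℕ, n0 ≤ n → 1 ≤ n ∧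
    (Real.exp 1 * D) ^ 2 / n ≤ 1 ∧
    65536 * (48 * ((Real.exp 1 * D) ^ 2 / n) ^ (2 * ((D : ℝ) + 1) / (D * (D + 2)))) < 1 ∧
    ∀ (p : ℝ) (E : ℕ), (n : ℝ) ^ (-(2 : ℝ) / ((D : ℝ) + 1)) ≤ p → E ≤ n ^ 2 →
    Real.exp ((Real.log 3 / (65536 * (48 *
        ((Real.exp 1 * D) ^ 2 / n) ^ (2 * ((D : ℝ) + 1) / (D * (D + 2))))))
        * (6 * 65536 * 48 * (((Nat.log 2 E + 1 : ℕ) : ℝ) *
          ((Real.exp 1 * D) ^ 2 / n) ^ (2 * ((D : ℝ) + 1) / (D * (D + 2)))) - p)) ≤ δ := by
  set a : ℝ := Real.exp 1 * D with ha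
  set s : ℝ := 2 * ((D : ℝ) + 1) / (D * (D + 2)) with hs
  have hD' : (1 : ℝ) ≤ D := by exact_mod_cast hD
  have he : (1 : ℝ) ≤ Real.exp 1 := Real.one_le_exp (by norm_num)
  have ha1 : 1 ≤ a := by rw [ha]; nlinarith
  have hs0 : 0 < s := by rw [hs]; positivity
  set η : ℝ := s - 2 / ((D : ℝ) + 1) with hη
  have hη0 : 0 < η := by
    have h1 : η = 2 / (D * (D + 1) * (D + 2)) := by
      rw [hη, hs]
      field_simp
      ring
    rw [h1]
    positivity
  have hlog3 : 0 < Real.log 3 := Real.log_pos (by norm_num)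
  set Cc : ℝ := ((a ^ 2) ^ s)⁻¹ with hCc
  have hCc0 : 0 < Cc := by rw [hCc]; positivity
  set A : ℝ := 6 * 65536 * 48 with hA
  have hA0 : 0 < A := by rw [hA]; norm_num
  set M : ℝ := 65536 * 48 / Real.log 3 * |Real.log δ| with hM
  have hM0 : 0 ≤ M := by rw [hM]; positivity
  -- the eventual facts
  have ev1 : ∀ᶠ n : ℕ in Filter.atTop, a ^ 2 ≤ (n : ℝ) :=
    tendsto_natCast_atTop_atTop.eventually_ge_atTop _
  have ev2 : ∀ᶠ n : ℕ in Filter.atTop, |Real.log (n : ℝ)| ≤ Cc / (8 * A) * |(n : ℝ) ^ η| := by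
    have h1 := (isLittleO_log_rpow_atTop hη0).bound (show 0 < Cc / (8 * A) by positivity)
    have h2 := tendsto_natCast_atTop_atTop.eventually h1
    filter_upwards [h2] with n hn
    simpa [Real.norm_eq_abs] using hn
  have ev3 : ∀ᶠ n : ℕ in Filter.atTop, (A + M) * 2 / Cc ≤ (n : ℝ) ^ η :=
    ((tendsto_rpow_atTop hη0).comp tendsto_natCast_atTop_atTop).eventually_ge_atTop _
  have ev4 : ∀ᶠ n : ℕ in Filter.atTop, 65536 * 48 * (a ^ 2) ^ s + 1 ≤ (n : ℝ) ^ s :=
    ((tendsto_rpow_atTop hs0).comp tendsto_natCast_atTop_atTop).eventually_ge_atTop _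
  obtain ⟨n0, hn0⟩ := Filter.eventually_atTop.1 (((ev1.and ev2).and (ev3.and ev4)).and
    (Filter.eventually_ge_atTop 1))
  refine ⟨n0, fun n hn => ?_⟩
  obtain ⟨⟨⟨h1, h2⟩, h3, h4⟩, h5⟩ := hn0 n hn
  have hn' : (1 : ℝ) ≤ n := by exact_mod_cast h5
  have hn0' : (0 : ℝ) < n := by linarith
  set q : ℝ := (a ^ 2 / n) ^ s with hq
  have hq0 : 0 < q := by rw [hq]; positivity
  have hqe : q = (a ^ 2) ^ s / (n : ℝ) ^ s := by
    rw [hq, Real.div_rpow (by positivity) hn0'.le]
  refine ⟨h5, by rw [div_le_one hn0']; exact h1, ?_, ?_⟩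
  · rw [hqe, ← mul_assoc, mul_div_assoc', div_lt_one (by positivity)]
    linarith
  · intro p E hp hE
    rw [← Real.le_log_iff_exp_le hδ]
    have hL : ((Nat.log 2 E + 1 : ℕ) : ℝ) ≤ 4 * Real.log n + 1 := by
      have h6 : Nat.log 2 E ≤ Nat.log 2 (n ^ 2) := Nat.log_mono_right hE
      have h7 : (2 : ℝ) ^ (Nat.log 2 (n ^ 2)) ≤ (n : ℝ) ^ 2 := by
        have h8 := Nat.pow_log_le_self 2 (show n ^ 2 ≠ 0 by positivity)
        exact_mod_cast h8
      have h9 : (Nat.log 2 (n ^ 2) : ℝ) * Real.log 2 ≤ 2 * Real.log n := by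
        have h10 := Real.log_le_log (by positivity) h7
        rw [Real.log_pow, Real.log_pow] at h10
        exact_mod_cast h10
      have h11 : (1 : ℝ) / 2 ≤ Real.log 2 := by
        have := Real.log_two_gt_d9
        linarith
      have h12 : (Nat.log 2 E : ℝ) ≤ (Nat.log 2 (n ^ 2) : ℝ) := by exact_mod_cast h6
      have h13 : (0 : ℝ) ≤ (Nat.log 2 (n ^ 2) : ℝ) := Nat.cast_nonneg _
      push_cast
      nlinarith
    have hpq : Cc * (n : ℝ) ^ η ≤ p / q := by
      rw [le_div_iff₀ hq0]
      have e1 : Cc * (n : ℝ) ^ η * q = (n : ℝ) ^ (-(2 : ℝ) / ((D : ℝ) + 1)) := by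
        have e2 : (n : ℝ) ^ η = (n : ℝ) ^ s * (n : ℝ) ^ (-(2 : ℝ) / ((D : ℝ) + 1)) := by
          rw [← Real.rpow_add hn0', hη]
          congr 1
          ring
        rw [e2, hqe, hCc]
        have : (a ^ 2) ^ s ≠ 0 := by positivity
        have : (n : ℝ) ^ s ≠ 0 := by positivity
        field_simp
      rw [e1]
      exact hp
    have hnη : 0 ≤ (n : ℝ) ^ η := by positivity
    have hlogn : Real.log n ≤ Cc / (8 * A) * (n : ℝ) ^ η := by
      rw [abs_of_nonneg hnη] at h2
      exact (le_abs_self _).trans h2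
    have e3 : (Real.log 3 / (65536 * (48 * q)))
        * (A * (((Nat.log 2 E + 1 : ℕ) : ℝ) * q) - p) =
        (Real.log 3 / (65536 * 48)) * (A * ((Nat.log 2 E + 1 : ℕ) : ℝ) - p / q) := by
      field_simp
    rw [e3]
    have h14 : A * ((Nat.log 2 E + 1 : ℕ) : ℝ) - p / q ≤ -M := by
      have h15 : A * ((Nat.log 2 E + 1 : ℕ) : ℝ) ≤ A * (4 * Real.log n + 1) :=
        mul_le_mul_of_nonneg_left hL hA0.le
      have h16 : A * (4 * Real.log n) ≤ Cc / 2 * (n : ℝ) ^ η := by
        have h17 := mul_le_mul_of_nonneg_left hlogn (show 0 ≤ 4 * A by positivity)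
        have e4 : 4 * A * (Cc / (8 * A) * (n : ℝ) ^ η) = Cc / 2 * (n : ℝ) ^ η := by
          field_simp
          ring
        rw [e4] at h17
        linarith
      have h18 : A + M ≤ Cc / 2 * (n : ℝ) ^ η := by
        rw [div_le_iff₀ hCc0] at h3
        linarith
      linarith
    calc (Real.log 3 / (65536 * 48)) * (A * ((Nat.log 2 E + 1 : ℕ) : ℝ) - p / q)
        ≤ (Real.log 3 / (65536 * 48)) * (-M) := mul_le_mul_of_nonneg_left h14 (by positivity)
      _ = - |Real.log δ| := by
          rw [hM]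
          field_simp
      _ ≤ Real.log δ := neg_abs_le _

/-- The bound for one edge set. -/
lemma bound_U (hAut : StAut) (hDens : StDens) {m n : ℕ} (hmn : m ≤ n) (hn : 1 ≤ n)
    (H : SimpleGraph (Fin m)) (D : ℕ) (hD : 1 ≤ D) (hdeg : ∀ v, H.degree v ≤ D)
    (hfree : H.CliqueFree (D + 1)) (hsm : (Real.exp 1 * D) ^ 2 / n ≤ 1)
    (U : Finset (Sym2 (Fin m))) (hU : ∀ e ∈ U, e ∈ H.edgeSet) :
    1 ≤ (n.descFactorial (supp U).card : ℝ) /
        (Nat.card ((subU H U hU).coe ≃g (subU H U hU).coe) : ℝ) *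
        (((Real.exp 1 * D) ^ 2 / n) ^ (2 * ((D : ℝ) + 1) / (D * (D + 2)))) ^ U.card := by
  set K := (subU H U hU).coe with hK
  have hcardV : Fintype.card ↥((subU H U hU).verts) = (supp U).card :=
    Fintype.card_of_subtype (p := fun x => x ∈ (subU H U hU).verts) (supp U) (fun x => Iff.rfl)
  have hKdeg : ∀ v, K.degree v ≤ D := by
    intro v
    refine le_trans ?_ (hdeg v.1)
    rw [← SimpleGraph.card_neighborSet_eq_degree, ← SimpleGraph.card_neighborSet_eq_degree]
    refine Fintype.card_le_of_injective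
      (fun w : K.neighborSet v => (⟨w.1.1, (subU H U hU).adj_sub w.2⟩ : H.neighborSet v.1)) ?_
    intro w w' h
    apply Subtype.ext
    apply Subtype.ext
    exact congrArg (fun x => x.1) h
  have hKfree : K.CliqueFree (D + 1) := by
    apply hfree.comap
    exact ⟨⟨(subU H U hU).hom, SimpleGraph.Subgraph.hom_injective⟩⟩
  have hKedge : K.edgeSet.ncard = U.card := by
    have h1 := SimpleGraph.Subgraph.image_coe_edgeSet_coe (subU H U hU)
    rw [subU_edgeSet] at h1
    rw [← Set.ncard_coe_finset, ← h1,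
      Set.ncard_image_of_injective _ (Sym2.map.injective Subtype.val_injective)]
  have hKnb : ∀ v, ∃ w, K.Adj v w := by
    intro v
    obtain ⟨e, he, hve⟩ := mem_supp.mp v.2
    induction e using Sym2.ind with
    | _ a b =>
      rcases Sym2.mem_iff.mp hve with h | h
      · refine ⟨⟨b, mem_supp.mpr ⟨_, he, Sym2.mem_mk_right _ _⟩⟩, ?_⟩
        change s(v.1, b) ∈ U
        rw [h]; exact he
      · refine ⟨⟨a, mem_supp.mpr ⟨_, he, Sym2.mem_mk_left _ _⟩⟩, ?_⟩
        change s(v.1, a) ∈ U
        rw [h, Sym2.eq_swap]; exact he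
  have h2 := two_comp K hKnb
  have h3 := hAut _ K D hD (fun v => by convert hKdeg v)
  have h4 := hDens _ K D hD (fun v => by convert hKdeg v) hKfree
  rw [hcardV] at h2 h3 h4
  rw [hKedge] at h4
  have hfin : Finite (K ≃g K) := by
    apply Finite.of_injective (fun f => f.toEquiv)
    intro f f' h
    exact RelIso.toEquiv_injective h
  have hvn : (supp U).card ≤ n := by
    have h5 := Finset.card_le_univ (supp U)
    rw [Fintype.card_fin] at h5
    omega
  exact ineq D n (supp U).card (Nat.card K.ConnectedComponent) U.card (Nat.card (K ≃g K))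
    (n.descFactorial (supp U).card) hD hn hvn h2 Nat.card_pos h3 h4
    (pow_le_exp_mul_descFactorial n _ hvn) hsm

theorem rest (hAut : StAut) (hDens : StDens) : StRest := by
  intro D hD δ hδ
  obtain ⟨n0, hn0⟩ := asym D hD δ hδ
  refine ⟨n0, fun n hn m hmn H hdeg hfree p hp0 hp1 hp => ?_⟩
  obtain ⟨hn1, hsm, hsmall, htail⟩ := hn0 n hn
  set q : ℝ := ((Real.exp 1 * D) ^ 2 / n) ^ (2 * ((D : ℝ) + 1) / (D * (D + 2))) with hq
  have hn' : (1 : ℝ) ≤ n := by exact_mod_cast hn1
  have hD' : (1 : ℝ) ≤ D := by exact_mod_cast hD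
  have hq0 : 0 < q := by rw [hq]; positivity
  set B : Finset (Sym2 (Fin n)) := (eF H).image (Sym2.map (Fin.castLE hmn)) with hB
  have hBcard : B.card = H.edgeSet.ncard := by
    rw [hB, Finset.card_image_of_injective _ (Sym2.map.injective (Fin.castLE_injective hmn)),
      eF_card]
  -- the complement
  have hlow : 1 - gnp n p (fun G => H.IsContained G)
      ≤ exs (eF (⊤ : SimpleGraph (Fin n))) p
        (fun W => ind (¬ ∃ σ : Equiv.Perm (Fin n), B.image (pairHom n σ) ⊆ W)) := by
    rw [gnp_eq_exs]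
    have h1 : (1 : ℝ) = exs (eF (⊤ : SimpleGraph (Fin n))) p (fun _ => 1) := by
      rw [exs_const]
    rw [sub_le_iff_le_add']
    conv_lhs => rw [h1]
    rw [← exs_add]
    apply exs_mono _ hp0 hp1
    intro W _
    by_cases hex : ∃ σ : Equiv.Perm (Fin n), B.image (pairHom n σ) ⊆ W
    · obtain ⟨σ, hσ⟩ := hex
      rw [image_pairHom] at hσ
      rw [if_pos (isContained_of_cop hmn H σ W hσ)]
      have := ind_nonneg (¬ ∃ σ : Equiv.Perm (Fin n), B.image (pairHom n σ) ⊆ W)
      linarith
    · rw [ind_true hex]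
      split_ifs <;> norm_num
  by_cases hH : B.Nonempty
  · have hmain := action_tail (pairHom n) (eF (⊤ : SimpleGraph (Fin n))) B hH
      (by
        intro σ x hx
        rw [image_pairHom] at hx
        have := cop_notDiag hmn H σ x hx
        rw [mem_eF, SimpleGraph.edgeSet_top]
        exact this)
      (fun _ => q) (fun _ => hq0) (fun _ _ _ => le_rfl)
      (fun u t _ hut => mul_le_mul_of_nonneg_right (by exact_mod_cast hut) hq0.le)
      (by
        intro A hA
        have := orbit_countU hmn H q hq0.le A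
          (fun U hU => bound_U hAut hDens hmn hn1 H D hD hdeg hfree hsm U hU) hA
        refine this.trans (le_of_eq ?_)
        congr 3)
      hsmall p hp0 hp1
    have hE : B.card ≤ n ^ 2 := by
      have h1 : B ⊆ eF (⊤ : SimpleGraph (Fin n)) := by
        intro x hx
        have h2 : x ∈ B.image (pairHom n 1) := by
          rw [map_one]
          simpa using hx
        rw [image_pairHom] at h2
        have := cop_notDiag hmn H 1 x h2
        rw [mem_eF, SimpleGraph.edgeSet_top]
        exact this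
      have h3 := Finset.card_le_card h1
      rw [eF_top_card] at h3
      refine h3.trans ?_
      exact Nat.choose_le_pow _ _
    have h1 := htail p B.card hp hE
    rw [Finset.sum_const, Finset.card_range, nsmul_eq_mul] at hmain
    have h2 := hlow.trans (hmain.trans h1)
    linarith
  · have h0 : exs (eF (⊤ : SimpleGraph (Fin n))) p
        (fun W => ind (¬ ∃ σ : Equiv.Perm (Fin n), B.image (pairHom n σ) ⊆ W)) ≤
        exs (eF (⊤ : SimpleGraph (Fin n))) p (fun _ => 0) := by
      apply exs_mono _ hp0 hp1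
      intro W _
      rw [ind_false]
      rw [not_not]
      refine ⟨1, ?_⟩
      rw [Finset.not_nonempty_iff_eq_empty.mp hH]
      simp
    rw [exs_const] at h0
    linarith

end Pool.Agent.Y31.KF
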